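import Pool.Agent.H71.TSG.M08

/-!
# Project LI: diagonal coefficients of the projection onto the chain spaces (proof)
-/

set_option autoImplicit false

open Finset

namespace Pool.Agent.H19.LI

open Pool.Agent.H19.Cub Pool.Agent.H4.Singer

namespace DimCh

set_option linter.unusedSectionVars false

section Abs

variable {P G : Type} [Group G]

/-- `f ↦ f (n p, g h)` -/
noncomputable def rx (n : P ≃ P) (h : G) : L2 (P × G) ≃ₗᵢ[ℂ] L2 (P × G) :=
  reix (Equiv.prodCongr n (Equiv.mulRight h)) (fun _ => 1) (fun _ => by norm_num)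

theorem rx_apply (n : P ≃ P) (h : G) (f : L2 (P × G)) (p : P) (g : G) :
    rx n h f (p, g) = f (n p, g * h) := by
  show ((1 : ℤ) : ℂ) * f (n p, g * h) = f (n p, g * h)
  rw [Int.cast_one, one_mul]

/-- `f ↦ f (p, w g)` -/
noncomputable def lx (w : G) : L2 (P × G) ≃ₗᵢ[ℂ] L2 (P × G) :=
  reix (Equiv.prodCongr (Equiv.refl P) (Equiv.mulLeft w)) (fun _ => 1) (fun _ => by norm_num)

theorem lx_apply (w : G) (f : L2 (P × G)) (p : P) (g : G) : lx w f (p, g) = f (p, w * g) := by
  show ((1 : ℤ) : ℂ) * f (p, w * g) = f (p, w * g)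
  rw [Int.cast_one, one_mul]

theorem ext2 {f f' : L2 (P × G)} (h : ∀ p g, f (p, g) = f' (p, g)) : f = f' := by
  ext s
  exact h s.1 s.2

theorem add_ap (f f' : L2 (P × G)) (s : P × G) : (f + f') s = f s + f' s := rfl

theorem smul_ap (c : ℂ) (f : L2 (P × G)) (s : P × G) : (c • f) s = c * f s := rfl

/-- the operator `a R n + b B n + c R B` -/
noncomputable def Jo (a b c : ℂ) (n : P ≃ P) (R B : G) : L2 (P × G) →ₗ[ℂ] L2 (P × G) :=
  a • (rx n R).toLinearEquiv.toLinearMap + b • (rx n B).toLinearEquiv.toLinearMap +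
    c • (rx (Equiv.refl P) (R * B)).toLinearEquiv.toLinearMap

theorem Jo_eq (a b c : ℂ) (n : P ≃ P) (R B : G) (f : L2 (P × G)) :
    Jo a b c n R B f = a • rx n R f + b • rx n B f + c • rx (Equiv.refl P) (R * B) f := rfl

theorem Jo_apply (a b c : ℂ) (n : P ≃ P) (R B : G) (f : L2 (P × G)) (p : P) (g : G) :
    Jo a b c n R B f (p, g) =
      a * f (n p, g * R) + b * f (n p, g * B) + c * f (p, g * (R * B)) := by
  rw [Jo_eq, add_ap, add_ap, smul_ap, smul_ap, smul_ap, rx_apply, rx_apply, rx_apply]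
  rfl

theorem Jo_lx (a b c : ℂ) (n : P ≃ P) (R B w : G) (f : L2 (P × G)) :
    Jo a b c n R B (lx w f) = lx w (Jo a b c n R B f) := by
  refine ext2 fun p g => ?_
  rw [lx_apply, Jo_apply, Jo_apply, lx_apply, lx_apply, lx_apply, mul_assoc w g R, mul_assoc w g B,
    mul_assoc w g (R * B)]

/-- antisymmetric vectors -/
def AS (z : G) (f : L2 (P × G)) : Prop := ∀ p g, f (p, g * z) = - f (p, g)

theorem AS.Jo {z : G} {f : L2 (P × G)} (hf : AS z f) (a b c : ℂ) (n : P ≃ P) (R B : G)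
    (hR : z * R = R * z) (hB : z * B = B * z) : AS z (Jo a b c n R B f) := by
  intro p g
  have h1 : g * z * R = g * R * z := by rw [mul_assoc, hR, mul_assoc]
  have h2 : g * z * B = g * B * z := by rw [mul_assoc, hB, mul_assoc]
  have h3 : g * z * (R * B) = g * (R * B) * z := by
    rw [mul_assoc g z, ← mul_assoc z, hR, mul_assoc R, hB, mul_assoc, mul_assoc]
  rw [Jo_apply, Jo_apply, h1, h2, h3, hf, hf, hf]
  ring

theorem AS.add {z : G} {f f' : L2 (P × G)} (hf : AS z f) (hf' : AS z f') : AS z (f + f') := by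
  intro p g
  rw [add_ap, add_ap, hf, hf', neg_add]

theorem AS.smul {z : G} {f : L2 (P × G)} (hf : AS z f) (c : ℂ) : AS z (c • f) := by
  intro p g
  rw [smul_ap, smul_ap, hf, mul_neg]

/-- the data on which the computation of the coefficients depends -/
structure Dat (V : Type) (P G : Type) [Group G] where
  σ : Finset V
  z : G
  J : V → L2 (P × G) →ₗ[ℂ] L2 (P × G)
  h : V → G
  zz : z * z = 1
  z_ne : z ≠ 1
  zh : ∀ v ∈ σ, z * h v = h v * z
  JAS : ∀ v ∈ σ, ∀ f, AS z f → AS z (J v f)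
  JJ : ∀ v ∈ σ, ∀ f, AS z f → J v (J v f) = f
  Jc : ∀ u ∈ σ, ∀ v ∈ σ, u ≠ v → ∀ f, AS z f → J u (J v f) = J v (J u f)
  Jh : ∀ v ∈ σ, ∀ f, AS z f → J v (rx (Equiv.refl P) (h v) f) = - rx (Equiv.refl P) (h v) (J v f)
  Jhc : ∀ u ∈ σ, ∀ v ∈ σ, u ≠ v → ∀ f, AS z f →
    J u (rx (Equiv.refl P) (h v) f) = rx (Equiv.refl P) (h v) (J u f)
  Jl : ∀ v w f, J v (lx w f) = lx w (J v f)
  Jsa : ∀ v ∈ σ, ∀ f f', AS z f → AS z f' → inner ℂ (J v f) f' = inner ℂ f (J v f')

open Classical in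
theorem ee_apply {I : Type} (s t : I) : (ee s : L2 I) t = if t = s then 1 else 0 := by
  unfold ee
  rw [lp.single_apply]
  by_cases h : t = s
  · subst h
    simp
  · rw [if_neg h, Pi.single_eq_of_ne h]

theorem inner_ee {I : Type} (s : I) (f : L2 I) : inner ℂ (ee s) f = f s := by
  unfold ee
  classical
  rw [lp.inner_single_left]
  simp

/-- the supports -/
def Sp (r : P → P → Prop) (p : P) (f : L2 (P × G)) : Prop := ∀ p' g', f (p', g') ≠ 0 → r p p'

/-- the good vectors -/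
structure Good {V : Type} (D : Dat V P G) (r : P → P → Prop) (A : Finset V)
    (q : P × G → L2 (P × G)) : Prop where
  as : ∀ s, AS D.z (q s)
  fix : ∀ s, ∀ v ∈ A, D.J v (q s) = q s
  rho : ∀ v ∈ D.σ, v ∉ A → ∀ p g, rx (Equiv.refl P) (D.h v) (q (p, g * D.h v)) = q (p, g)
  lam : ∀ w p g, lx w (q (p, w * g)) = q (p, g)
  sp : ∀ p g, Sp r p (q (p, g))
  val : ∀ p g, q (p, g) (p, g) = (1 / 2) ^ (A.card + 1)
  inn : ∀ p g f, AS D.z f → (∀ v ∈ D.σ, ∀ p' g', r p p' → D.J v f (p', g') = f (p', g')) →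
    inner ℂ (q (p, g)) f = f (p, g)

theorem inner_congr {q f f' : L2 (P × G)} (h : ∀ s, q s ≠ 0 → f s = f' s) :
    inner ℂ q f = inner ℂ q f' := by
  rw [lp.inner_eq_tsum, lp.inner_eq_tsum]
  refine tsum_congr fun s => ?_
  by_cases hs : q s = 0
  · rw [hs, inner_zero_left, inner_zero_left]
  · rw [h s hs]

theorem ee_self {I : Type} (s : I) : (ee s : L2 I) s = 1 := by
  classical
  rw [ee_apply, if_pos rfl]

theorem ee_ne {I : Type} {s t : I} (h : t ≠ s) : (ee s : L2 I) t = 0 := by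
  classical
  rw [ee_apply, if_neg h]

theorem ee_iff {I I' : Type} {s t : I} {s' t' : I'} (h : t = s ↔ t' = s') :
    (ee s : L2 I) t = (ee s' : L2 I') t' := by
  by_cases h1 : t = s
  · rw [h1, h.1 h1, ee_self, ee_self]
  · rw [ee_ne h1, ee_ne fun h2 => h1 (h.2 h2)]

theorem ee_rx (h : G) (p : P) (g : G) : rx (Equiv.refl P) h (ee (p, g * h)) = ee (p, g) := by
  refine ext2 fun p' g' => ?_
  rw [rx_apply]
  refine ee_iff ?_
  rw [Prod.mk.injEq, Prod.mk.injEq]
  exact and_congr_right fun _ => mul_left_inj h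

theorem ee_lx (w : G) (p : P) (g : G) : lx w (ee (p, w * g)) = ee (p, g) := by
  refine ext2 fun p' g' => ?_
  rw [lx_apply]
  refine ee_iff ?_
  rw [Prod.mk.injEq, Prod.mk.injEq]
  exact and_congr_right fun _ => mul_right_inj w

theorem inner_rx (n : P ≃ P) (h : G) (hn : ∀ p, n (n p) = p) (hh : h * h = 1)
    (f f' : L2 (P × G)) : inner ℂ (rx n h f) f' = inner ℂ f (rx n h f') := by
  have h1 : rx n h (rx n h f') = f' := by
    refine ext2 fun p g => ?_
    rw [rx_apply, rx_apply, hn, mul_assoc, hh, mul_one]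
  conv_lhs => rw [← h1]
  exact (rx n h).inner_map_map _ _

theorem conj_half : (starRingEnd ℂ) (1 / 2 : ℂ) = 1 / 2 := by
  rw [map_div₀, map_one, map_ofNat]

/-- the start of the induction -/
theorem good_zero {V : Type} (D : Dat V P G) (r : P → P → Prop) (hr : ∀ p, r p p) :
    Good D r ∅ fun s => (1 / 2 : ℂ) • (ee s - rx (Equiv.refl P) D.z (ee s)) := by
  have key : ∀ (p : P) (g : G) (p' : P) (g' : G),
      ((1 / 2 : ℂ) • (ee (p, g) - rx (Equiv.refl P) D.z (ee (p, g)))) (p', g') =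
        1 / 2 * ((ee (p, g) : L2 (P × G)) (p', g') - (ee (p, g) : L2 (P × G)) (p', g' * D.z)) := by
    intro p g p' g'
    rw [smul_ap]
    congr 1
    show (ee (p, g) : L2 (P × G)) (p', g') - rx (Equiv.refl P) D.z (ee (p, g)) (p', g') = _
    rw [rx_apply]
    rfl
  refine ⟨fun s => ?_, fun s v hv => absurd hv (Finset.notMem_empty v), ?_, ?_, ?_, ?_, ?_⟩
  · obtain ⟨p, g⟩ := s
    intro p' g'
    rw [key, key, mul_assoc, D.zz, mul_one]
    ring
  · intro v hv _ p g
    refine ext2 fun p' g' => ?_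
    rw [rx_apply, key, key, mul_assoc g', ← D.zh v hv, ← mul_assoc, ← rx_apply (Equiv.refl P),
      ← rx_apply (Equiv.refl P), ee_rx]
  · intro w p g
    refine ext2 fun p' g' => ?_
    rw [lx_apply, key, key, mul_assoc w, ← lx_apply, ← lx_apply, ee_lx]
  · intro p g p' g' h
    by_cases hp : p' = p
    · rw [hp]
      exact hr p
    · refine absurd ?_ h
      show ((1 / 2 : ℂ) • (ee (p, g) - rx (Equiv.refl P) D.z (ee (p, g)))) (p', g') = 0
      rw [key, ee_ne fun h1 => hp (Prod.ext_iff.1 h1).1, ee_ne fun h1 => hp (Prod.ext_iff.1 h1).1]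
      ring
  · intro p g
    show ((1 / 2 : ℂ) • (ee (p, g) - rx (Equiv.refl P) D.z (ee (p, g)))) (p, g) = _
    have h1 : (p, g * D.z) ≠ (p, g) := fun h2 => D.z_ne (by
      have h3 := (Prod.ext_iff.1 h2).2
      exact mul_eq_left.1 h3)
    rw [key, ee_self, ee_ne h1, Finset.card_empty]
    norm_num
  · intro p g f hf _
    have h1 : rx (Equiv.refl P) D.z f = - f := by
      refine ext2 fun p' g' => ?_
      rw [rx_apply]
      exact hf p' g'
    show inner ℂ ((1 / 2 : ℂ) • (ee (p, g) - rx (Equiv.refl P) D.z (ee (p, g)))) f = f (p, g)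
    rw [inner_smul_left, inner_sub_left, inner_rx _ _ (fun _ => rfl) D.zz, h1, inner_neg_right,
      inner_ee, conj_half]
    ring

/-- the induction step -/
theorem good_succ {V : Type} [DecidableEq V] (D : Dat V P G) (r : P → P → Prop)
    (hJ : ∀ v ∈ D.σ, ∀ p f, Sp r p f → Sp r p (D.J v f)) (A : Finset V)
    (q : P × G → L2 (P × G)) (hq : Good D r A q) (v : V) (hv : v ∈ D.σ) (hvA : v ∉ A)
    (hA : A ⊆ D.σ) :
    Good D r (insert v A) fun s => (1 / 2 : ℂ) • (q s + D.J v (q s)) := by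
  have hzero : ∀ p g, D.J v (q (p, g)) (p, g) = 0 := by
    intro p g
    have h1 : D.J v (q (p, g)) (p, g) = - D.J v (q (p, g * D.h v)) (p, g * D.h v) := by
      conv_lhs => rw [← hq.rho v hv hvA, D.Jh v hv _ (hq.as _)]
      show - (rx (Equiv.refl P) (D.h v) (D.J v (q (p, g * D.h v))) (p, g)) = _
      rw [rx_apply]
      rfl
    have h2 : D.J v (q (p, g)) (p, g) = D.J v (q (p, g * D.h v)) (p, g * D.h v) := by
      have h3 : g * D.h v * g⁻¹ * g = g * D.h v := by group
      conv_lhs => rw [← hq.lam (g * D.h v * g⁻¹), D.Jl, lx_apply, h3]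
    have h4 : D.J v (q (p, g)) (p, g) = - D.J v (q (p, g)) (p, g) := by
      conv_rhs => rw [h2]
      exact h1
    linear_combination h4 / 2
  refine ⟨fun s => ((hq.as s).add (D.JAS v hv _ (hq.as s))).smul _, ?_, ?_, ?_, ?_, ?_, ?_⟩
  · intro s u hu
    rw [map_smul, map_add]
    congr 1
    by_cases huv : u = v
    · rw [huv, D.JJ v hv _ (hq.as s), add_comm]
    · have huA : u ∈ A := (Finset.mem_insert.1 hu).resolve_left huv
      rw [D.Jc u (hA huA) v hv huv _ (hq.as s), hq.fix s u huA]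
  · intro u hu huA p g
    have huv : u ≠ v := fun h => huA (h ▸ Finset.mem_insert_self v A)
    rw [map_smul, map_add, ← D.Jhc v hv u hu (Ne.symm huv) _ (hq.as _),
      hq.rho u hu fun h => huA (Finset.mem_insert_of_mem h)]
  · intro w p g
    rw [map_smul, map_add, ← D.Jl, hq.lam]
  · intro p g p' g' h
    by_contra hn
    refine h ?_
    show ((1 / 2 : ℂ) • (q (p, g) + D.J v (q (p, g)))) (p', g') = 0
    have h1 : q (p, g) (p', g') = 0 := by
      by_contra h2
      exact hn (hq.sp p g p' g' h2)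
    have h3 : D.J v (q (p, g)) (p', g') = 0 := by
      by_contra h2
      exact hn (hJ v hv p _ (hq.sp p g) p' g' h2)
    rw [smul_ap, add_ap, h1, h3, add_zero, mul_zero]
  · intro p g
    rw [smul_ap, add_ap, hzero, hq.val, Finset.card_insert_of_notMem hvA]
    ring
  · intro p g f hf hc
    have h1 : inner ℂ (D.J v (q (p, g))) f = inner ℂ (q (p, g)) f := by
      rw [D.Jsa v hv _ _ (hq.as _) hf]
      exact inner_congr fun s hs => hc v hv s.1 s.2 (hq.sp p g s.1 s.2 hs)
    rw [inner_smul_left, inner_add_left, h1, hq.inn p g f hf hc, conj_half]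
    ring

/-- the induction -/
theorem good_all {V : Type} [DecidableEq V] (D : Dat V P G) (r : P → P → Prop)
    (hr : ∀ p, r p p) (hJ : ∀ v ∈ D.σ, ∀ p f, Sp r p f → Sp r p (D.J v f)) :
    ∃ q, Good D r D.σ q := by
  have h : ∀ A : Finset V, A ⊆ D.σ → ∃ q, Good D r A q := by
    intro A
    induction A using Finset.induction_on with
    | empty => exact fun _ => ⟨_, good_zero D r hr⟩
    | insert v A hvA ih =>
      intro hA
      obtain ⟨q, hq⟩ := ih fun u hu => hA (Finset.mem_insert_of_mem hu)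
      exact ⟨_, good_succ D r hJ A q hq v (hA (Finset.mem_insert_self v A)) hvA
        fun u hu => hA (Finset.mem_insert_of_mem hu)⟩
  exact h D.σ (Finset.Subset.refl _)

end Abs

section Con

variable {V X : Type} [DecidableEq V] {C : CubeComplex V X} {Γ G : Type} [Group Γ]
  [MulAction Γ V] [Group G]

theorem sub_nb (C : CubeComplex V X) {σ : Finset V} {x : X} (hc : C.graph.IsClique (σ : Set V))
    {v : V} (hv : v ∈ σ) (h : σ ⊆ C.lab x) : σ ⊆ C.lab (C.nb v x) := by
  intro u hu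
  by_cases huv : u = v
  · rw [huv]
    exact C.lab_nb v x (h hv)
  · exact C.lab_adj u v x (hc (Finset.mem_coe.2 hu) (Finset.mem_coe.2 hv) huv) (h hu) (h hv)

open Classical in
/-- the neighbour in the direction `v` -/
noncomputable def nf (C : CubeComplex V X) (v : V) (p : Jx C) : Jx C :=
  if h : C.graph.IsClique (p.1.1 : Set V) ∧ v ∈ p.1.1 then
    ⟨(p.1.1, C.nb v p.1.2), sub_nb C h.1 h.2 p.2⟩ else p

theorem nf_pos (C : CubeComplex V X) (v : V) (p : Jx C) (h1 : C.graph.IsClique (p.1.1 : Set V))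
    (h2 : v ∈ p.1.1) : nf C v p = ⟨(p.1.1, C.nb v p.1.2), sub_nb C h1 h2 p.2⟩ := by
  unfold nf
  rw [dif_pos ⟨h1, h2⟩]

theorem nf_neg (C : CubeComplex V X) (v : V) (p : Jx C)
    (h : ¬ (C.graph.IsClique (p.1.1 : Set V) ∧ v ∈ p.1.1)) : nf C v p = p := by
  unfold nf
  rw [dif_neg h]

theorem nf_fst (C : CubeComplex V X) (v : V) (p : Jx C) : (nf C v p).1.1 = p.1.1 := by
  by_cases h : C.graph.IsClique (p.1.1 : Set V) ∧ v ∈ p.1.1
  · rw [nf_pos C v p h.1 h.2]
  · rw [nf_neg C v p h]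

theorem nf_nf (C : CubeComplex V X) (v : V) (p : Jx C) : nf C v (nf C v p) = p := by
  by_cases h : C.graph.IsClique (p.1.1 : Set V) ∧ v ∈ p.1.1
  · rw [nf_pos C v p h.1 h.2]
    refine (nf_pos C v ⟨(p.1.1, C.nb v p.1.2), _⟩ h.1 h.2).trans ?_
    refine Subtype.ext (Prod.ext rfl ?_)
    exact C.nb_nb v p.1.2 (p.2 h.2)
  · rw [nf_neg C v p h, nf_neg C v p h]

theorem nf_comm (C : CubeComplex V X) (u v : V) (huv : C.graph.Adj u v) (p : Jx C) :
    nf C u (nf C v p) = nf C v (nf C u p) := by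
  by_cases h : C.graph.IsClique (p.1.1 : Set V) ∧ v ∈ p.1.1
  · by_cases h' : C.graph.IsClique (p.1.1 : Set V) ∧ u ∈ p.1.1
    · rw [nf_pos C v p h.1 h.2, nf_pos C u p h.1 h'.2]
      refine (nf_pos C u ⟨(p.1.1, C.nb v p.1.2), _⟩ h.1 h'.2).trans ?_
      refine Eq.trans ?_ (nf_pos C v ⟨(p.1.1, C.nb u p.1.2), _⟩ h.1 h.2).symm
      refine Subtype.ext (Prod.ext rfl ?_)
      exact C.nb_comm u v p.1.2 huv (p.2 h'.2) (p.2 h.2)
    · rw [nf_neg C u p h', nf_neg C u]
      rwa [nf_fst]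
  · rw [nf_neg C v p h, nf_neg C v (nf C u p)]
    rwa [nf_fst]

/-- `nf` as a permutation -/
noncomputable def ne (C : CubeComplex V X) (v : V) : Jx C ≃ Jx C :=
  Function.Involutive.toPerm (nf C v) (nf_nf C v)

theorem ne_apply (C : CubeComplex V X) (v : V) (p : Jx C) : ne C v p = nf C v p := rfl

theorem sp_Jo (C : CubeComplex V X) (a b c : ℂ) (v : V) (R B : G) (p : Jx C)
    (f : L2 (Jx C × G)) (hf : Sp (fun p p' : Jx C => p'.1.1 = p.1.1) p f) :
    Sp (fun p p' : Jx C => p'.1.1 = p.1.1) p (Jo a b c (ne C v) R B f) := by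
  intro p' g' h
  by_contra hn
  have hf' : ∀ p'' : Jx C, p''.1.1 = p'.1.1 → ∀ g'', f (p'', g'') = 0 := by
    intro p'' h1 g''
    by_contra h2
    exact hn (h1.symm.trans (hf p'' g'' h2))
  refine h ?_
  rw [Jo_apply, ne_apply, hf' _ (nf_fst C v p'), hf' _ (nf_fst C v p'), hf' _ rfl]
  ring

section Alg

variable {P : Type} {z R B : G}

/-- evaluation after multiplication by `z` -/
theorem as_z {f : L2 (P × G)} (hf : AS z f) (p : P) {g g' : G} (h : g = g' * z) :
    f (p, g) = - f (p, g') := by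
  rw [h]
  exact hf p g'

end Alg

theorem BR (D : GD C Γ G) (v : V) : D.B v * D.R v = D.z * (D.R v * D.B v) := by
  rw [D.RB, ← mul_assoc, D.zz, one_mul]

theorem RBR (D : GD C Γ G) (v : V) : D.R v * D.B v * D.R v = D.B v * D.z := by
  rw [mul_assoc, BR, ← mul_assoc, ← D.zR, mul_assoc, ← mul_assoc (D.R v), D.RR, one_mul, D.zB]

theorem BRB (D : GD C Γ G) (v : V) : D.B v * (D.R v * D.B v) = D.R v * D.z := by
  rw [← mul_assoc, BR, mul_assoc, mul_assoc (D.R v), D.BB, mul_one, D.zR]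

theorem RBRB (D : GD C Γ G) (v : V) : D.R v * D.B v * (D.R v * D.B v) = D.z := by
  rw [mul_assoc, BRB, ← mul_assoc, D.RR, one_mul]

theorem neg_ap {P : Type} (f : L2 (P × G)) (s : P × G) : (- f) s = - f s := rfl

theorem Rh (D : GD C Γ G) {u v : V} (h : C.graph.Adj u v) :
    D.R u * (D.R v * D.B v) = D.R v * D.B v * D.R u := by
  rw [← mul_assoc, D.cRR u v h, mul_assoc, D.cRB u v h, mul_assoc]

theorem Bh (D : GD C Γ G) {u v : V} (h : C.graph.Adj u v) :
    D.B u * (D.R v * D.B v) = D.R v * D.B v * D.B u := by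
  rw [← mul_assoc, ← D.cRB v u h.symm, mul_assoc, D.cBB u v h, mul_assoc]

/-- the data for `‖T‖ = 1` -/
noncomputable def dat1 (D : GD C Γ G) (T : ℂ) (hT : ‖T‖ = 1) (σ : Finset V)
    (hσ : C.graph.IsClique (σ : Set V)) : Dat V (Jx C) G where
  σ := σ
  z := D.z
  J v := Jo (-(T⁻¹ + T) / 2) (-(Complex.I * (T⁻¹ - T)) / 2) 0 (ne C v) (D.R v) (D.B v)
  h v := D.R v * D.B v
  zz := D.zz
  z_ne := D.z_ne
  zh v _ := by rw [← mul_assoc, D.zR, mul_assoc, D.zB, mul_assoc]
  JAS v _ f hf := hf.Jo _ _ _ _ _ _ (D.zR v) (D.zB v)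
  JJ v _ f hf := by
    refine ext2 fun p g => ?_
    simp only [Jo_apply, ne_apply, nf_nf, zero_mul, add_zero]
    have e1 : g * D.R v * D.R v = g := by rw [mul_assoc, D.RR, mul_one]
    have e2 : g * D.B v * D.B v = g := by rw [mul_assoc, D.BB, mul_one]
    have e3 : f (p, g * D.B v * D.R v) = - f (p, g * D.R v * D.B v) := by
      refine as_z hf p ?_
      rw [mul_assoc, BR, ← mul_assoc D.z, D.zR, mul_assoc (D.R v), D.zB]
      simp only [mul_assoc]
    rw [e1, e2, e3]
    have hT0 : T ≠ 0 := by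
      rintro rfl
      simp at hT
    have h1 : T⁻¹ * T = 1 := inv_mul_cancel₀ hT0
    have hI := Complex.I_sq
    linear_combination (f (p, g)) * h1 + ((T⁻¹ - T) ^ 2 / 4 * f (p, g)) * hI
  Jc u hu v hv huv f hf := by
    have ha : C.graph.Adj u v := hσ (Finset.mem_coe.2 hu) (Finset.mem_coe.2 hv) huv
    refine ext2 fun p g => ?_
    simp only [Jo_apply, ne_apply, zero_mul, add_zero]
    rw [nf_comm C v u ha.symm, mul_assoc g, mul_assoc g, mul_assoc g, mul_assoc g, mul_assoc g,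
      mul_assoc g, mul_assoc g, mul_assoc g, D.cRR u v ha, D.cBB u v ha, D.cRB u v ha,
      ← D.cRB v u ha.symm]
    ring
  Jh v _ f hf := by
    refine ext2 fun p g => ?_
    rw [neg_ap, rx_apply]
    simp only [Jo_apply, ne_apply, zero_mul, add_zero, rx_apply, Equiv.refl_apply]
    have e1 : g * D.R v * (D.R v * D.B v) = g * D.B v := by
      rw [mul_assoc, ← mul_assoc (D.R v), D.RR, one_mul]
    have e2 : g * (D.R v * D.B v) * D.B v = g * D.R v := by
      rw [mul_assoc, mul_assoc (D.R v), D.BB, mul_one]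
    rw [e1, e2, as_z hf _ (g := g * D.B v * (D.R v * D.B v)) (g' := g * D.R v)
      (by rw [mul_assoc, BRB, mul_assoc]),
      as_z hf _ (g := g * (D.R v * D.B v) * D.R v) (g' := g * D.B v)
      (by rw [mul_assoc, RBR, mul_assoc])]
    ring
  Jhc u hu v hv huv f hf := by
    have ha : C.graph.Adj u v := hσ (Finset.mem_coe.2 hu) (Finset.mem_coe.2 hv) huv
    refine ext2 fun p g => ?_
    simp only [Jo_apply, ne_apply, zero_mul, add_zero, rx_apply, Equiv.refl_apply]
    rw [mul_assoc g, mul_assoc g, mul_assoc g, mul_assoc g, Rh D ha, Bh D ha]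
  Jl v w f := Jo_lx _ _ _ _ _ _ _ _
  Jsa v _ f f' hf hf' := by
    have hT1 : T⁻¹ = (starRingEnd ℂ) T := Complex.inv_eq_conj hT
    have ha : (starRingEnd ℂ) (-(T⁻¹ + T) / 2) = -(T⁻¹ + T) / 2 := by
      rw [hT1, map_div₀, map_neg, map_add, Complex.conj_conj, map_ofNat, add_comm]
    have hb : (starRingEnd ℂ) (-(Complex.I * (T⁻¹ - T)) / 2) = -(Complex.I * (T⁻¹ - T)) / 2 := by
      rw [hT1, map_div₀, map_neg, map_mul, map_sub, Complex.conj_conj, map_ofNat, Complex.conj_I]
      ring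
    rw [Jo_eq, Jo_eq, zero_smul, zero_smul, add_zero, add_zero, inner_add_left, inner_add_right,
      inner_smul_left, inner_smul_left, inner_smul_right, inner_smul_right, ha, hb,
      inner_rx _ _ (nf_nf C v) (D.RR v), inner_rx _ _ (nf_nf C v) (D.BB v)]

/-- the data for `T = 0` -/
noncomputable def dat0 (D : GD C Γ G) (σ : Finset V)
    (hσ : C.graph.IsClique (σ : Set V)) : Dat V (Jx C) G where
  σ := σ
  z := D.z
  J v := Jo 0 0 (- Complex.I) (ne C v) (D.R v) (D.B v)
  h v := D.R v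
  zz := D.zz
  z_ne := D.z_ne
  zh v _ := D.zR v
  JAS v _ f hf := hf.Jo _ _ _ _ _ _ (D.zR v) (D.zB v)
  JJ v _ f hf := by
    refine ext2 fun p g => ?_
    simp only [Jo_apply, zero_mul, zero_add]
    rw [mul_assoc g, RBRB, hf]
    linear_combination (- f (p, g)) * Complex.I_sq
  Jc u hu v hv huv f hf := by
    have ha : C.graph.Adj u v := hσ (Finset.mem_coe.2 hu) (Finset.mem_coe.2 hv) huv
    refine ext2 fun p g => ?_
    simp only [Jo_apply, zero_mul, zero_add]
    rw [mul_assoc g, mul_assoc g, mul_assoc (D.R u), Bh D ha, ← mul_assoc (D.R u), Rh D ha,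
      mul_assoc (D.R v * D.B v)]
  Jh v _ f hf := by
    refine ext2 fun p g => ?_
    rw [neg_ap, rx_apply]
    simp only [Jo_apply, zero_mul, zero_add, rx_apply, Equiv.refl_apply]
    have e1 : g * D.R v * (D.R v * D.B v) = g * D.B v := by
      rw [mul_assoc, ← mul_assoc (D.R v), D.RR, one_mul]
    rw [e1, as_z hf _ (g := g * (D.R v * D.B v) * D.R v) (g' := g * D.B v)
      (by rw [mul_assoc, RBR, mul_assoc])]
    ring
  Jhc u hu v hv huv f hf := by
    have ha : C.graph.Adj u v := hσ (Finset.mem_coe.2 hu) (Finset.mem_coe.2 hv) huv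
    refine ext2 fun p g => ?_
    simp only [Jo_apply, zero_mul, zero_add, rx_apply, Equiv.refl_apply]
    rw [mul_assoc g, mul_assoc g, Rh D ha.symm]
  Jl v w f := Jo_lx _ _ _ _ _ _ _ _
  Jsa v _ f f' hf hf' := by
    have h1 : inner ℂ (rx (Equiv.refl (Jx C)) (D.R v * D.B v) f) f' =
        - inner ℂ f (rx (Equiv.refl (Jx C)) (D.R v * D.B v) f') := by
      have h2 : f' = - rx (Equiv.refl (Jx C)) (D.R v * D.B v)
          (rx (Equiv.refl (Jx C)) (D.R v * D.B v) f') := by
        refine ext2 fun p g => ?_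
        rw [neg_ap, rx_apply, rx_apply, mul_assoc, RBRB]
        show f' (p, g) = - f' (p, g * D.z)
        rw [hf', neg_neg]
      conv_lhs => rw [h2]
      rw [inner_neg_right]
      congr 1
      exact (rx (Equiv.refl (Jx C)) (D.R v * D.B v)).inner_map_map _ _
    rw [Jo_eq, Jo_eq, zero_smul, zero_smul, zero_smul, zero_smul, add_zero, zero_add, zero_add,
      inner_smul_left, inner_smul_right, h1, map_neg, Complex.conj_I]
    ring

/-- the end of the proof -/
theorem fin_proj (D : GD C Γ G) (T : ℂ) (i : ℕ) (p : Jx C) (g : G)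
    (hc : C.graph.IsClique (p.1.1 : Set V)) (hi : p.1.1.card = i) (E : Dat V (Jx C) G)
    (hσ : E.σ = p.1.1) (hz : E.z = D.z)
    (hJ : ∀ v ∈ E.σ, ∀ p f, Sp (fun p p' : Jx C => p'.1.1 = p.1.1) p f →
      Sp (fun p p' : Jx C => p'.1.1 = p.1.1) p (E.J v f))
    (h1 : ∀ f ∈ Ch D T i, ∀ v ∈ p.1.1, ∀ (p' : Jx C) (g' : G), p'.1.1 = p.1.1 →
      E.J v f (p', g') = f (p', g'))
    (h2 : ∀ f : L2 (Jx C × G), AS D.z f → (∀ v ∈ p.1.1, E.J v f = f) →
      ∀ x, p.1.1 ⊆ C.lab x → ∀ v ∈ p.1.1, ∀ g, 2 * T * ev f p.1.1 (C.nb v x) g =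
        - (Np D (ev f p.1.1 x) v g + T ^ 2 * Nm D (ev f p.1.1 x) v g)) :
    ‖(Ch D T i).topologicalClosure.starProjection (ee (p, g))‖ ^ 2 = (1 / 2 : ℝ) ^ (i + 1) := by
  obtain ⟨q, hq⟩ := good_all E (fun p p' : Jx C => p'.1.1 = p.1.1) (fun _ => rfl) hJ
  have has : AS D.z (q (p, g)) := by
    rw [← hz]
    exact hq.as _
  have hin : ∀ f ∈ Ch D T i, inner ℂ (q (p, g)) f = f (p, g) := by
    intro f hf
    refine hq.inn p g f ?_ ?_
    · rw [hz]
      exact hf.1
    · intro v hv p' g' h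
      exact h1 f hf v (hσ ▸ hv) p' g' h
  have hmem : q (p, g) ∈ Ch D T i := by
    refine ⟨has, ?_, ?_⟩
    · intro p' g' h
      have h3 : p'.1.1 = p.1.1 := hq.sp p g p' g' h
      rw [h3]
      exact ⟨hc, hi⟩
    · intro σ x hs hcl v hv g'
      by_cases hσp : σ = p.1.1
      · subst hσp
        refine h2 _ has (fun v hv => hq.fix _ v (hσ ▸ hv)) x hs v hv g'
      · have h0 : ∀ x' g'', ev (q (p, g)) σ x' g'' = 0 := by
          intro x' g''
          by_cases hx : σ ⊆ C.lab x'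
          · rw [ev_pos _ hx]
            by_contra h3
            exact hσp (hq.sp p g _ _ h3)
          · exact ev_neg _ hx g''
        simp only [Np, Nm, h0]
        ring
  have hproj : (Ch D T i).topologicalClosure.starProjection (ee (p, g)) = q (p, g) := by
    refine Submodule.eq_starProjection_of_mem_orthogonal
      (Submodule.le_topologicalClosure _ hmem) ?_
    rw [Submodule.orthogonal_closure, Submodule.mem_orthogonal']
    intro f hf
    rw [inner_sub_left, hin f hf, inner_ee, sub_self]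
  rw [hproj]
  have h3 := hin _ hmem
  rw [hq.val, inner_self_eq_norm_sq_to_K, hσ, hi] at h3
  have h4 : ((‖q (p, g)‖ ^ 2 : ℝ) : ℂ) = (((1 / 2 : ℝ) ^ (i + 1) : ℝ) : ℂ) := by
    push_cast
    exact h3
  exact Complex.ofReal_injective h4

end Con

end DimCh

open DimCh in
open Classical in
theorem DimCh_main {V X : Type} [DecidableEq V] {C : CubeComplex V X} {Γ G : Type} [Group Γ]
    [MulAction Γ V] [Group G] (D : GD C Γ G) (T : ℂ) (hT : T = 0 ∨ ‖T‖ = 1) (i : ℕ) (p : Jx C)
    (g : G) :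
    ‖(Ch D T i).topologicalClosure.starProjection (ee (p, g))‖ ^ 2 =
      if C.graph.IsClique (p.1.1 : Set V) ∧ p.1.1.card = i then (1 / 2 : ℝ) ^ (i + 1) else 0 := by
  split_ifs with h
  · rcases hT with rfl | hT
    · refine fin_proj D 0 i p g h.1 h.2 (dat0 D p.1.1 h.1) rfl rfl ?_ ?_ ?_
      · exact fun v _ p f hf => sp_Jo _ _ _ _ _ _ _ _ _ hf
      · intro f hf v hv p' g' hp
        obtain ⟨⟨σ', x⟩, hs⟩ := p'
        change σ' = p.1.1 at hp
        subst hp
        have e := hf.2.2 p.1.1 x hs h.1 v hv (g' * D.R v)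
        simp only [Np, ev_pos f hs] at e
        rw [mul_assoc g' (D.R v) (D.R v), D.RR, mul_one, mul_assoc g'] at e
        show Jo 0 0 (- Complex.I) (ne C v) (D.R v) (D.B v) f (⟨(p.1.1, x), hs⟩, g') = _
        rw [Jo_apply]
        linear_combination -e
      · intro f _ hJ x hx v hv g'
        have e : Jo 0 0 (- Complex.I) (ne C v) (D.R v) (D.B v) f
            (⟨(p.1.1, x), hx⟩, g' * D.R v) = f (⟨(p.1.1, x), hx⟩, g' * D.R v) := by
          have e1 : Jo 0 0 (- Complex.I) (ne C v) (D.R v) (D.B v) f = f := hJ v hv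
          rw [e1]
        rw [Jo_apply, mul_assoc g' (D.R v) (D.R v * D.B v), ← mul_assoc (D.R v) (D.R v), D.RR,
          one_mul] at e
        simp only [Np, ev_pos f hx]
        linear_combination -e
    · have hT0 : T ≠ 0 := by
        rintro rfl
        simp at hT
      have hTT : T⁻¹ * T = 1 := inv_mul_cancel₀ hT0
      refine fin_proj D T i p g h.1 h.2 (dat1 D T hT p.1.1 h.1) rfl rfl ?_ ?_ ?_
      · exact fun v _ p f hf => sp_Jo _ _ _ _ _ _ _ _ _ hf
      · intro f hf v hv p' g' hp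
        obtain ⟨⟨σ', x⟩, hs⟩ := p'
        change σ' = p.1.1 at hp
        subst hp
        have e := hf.2.2 p.1.1 (C.nb v x) (sub_nb C h.1 hv hs) h.1 v hv g'
        rw [C.nb_nb v x (hs hv)] at e
        simp only [Np, Nm, ev_pos f hs, ev_pos f (sub_nb C h.1 hv hs)] at e
        show Jo (-(T⁻¹ + T) / 2) (-(Complex.I * (T⁻¹ - T)) / 2) 0 (ne C v) (D.R v) (D.B v) f
          (⟨(p.1.1, x), hs⟩, g') = _
        rw [Jo_apply, ne_apply, nf_pos C v ⟨(p.1.1, x), hs⟩ h.1 hv]
        set X' := f (⟨(p.1.1, C.nb v x), sub_nb C h.1 hv hs⟩, g' * D.R v)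
        set Y' := f (⟨(p.1.1, C.nb v x), sub_nb C h.1 hv hs⟩, g' * D.B v)
        set Z' := f (⟨(p.1.1, x), hs⟩, g')
        linear_combination (-(T⁻¹ / 2)) * e +
          (Z' + T * X' / 2 - Complex.I * T * Y' / 2) * hTT
      · intro f _ hJ x hx v hv g'
        have hx' := sub_nb C h.1 hv hx
        have e : Jo (-(T⁻¹ + T) / 2) (-(Complex.I * (T⁻¹ - T)) / 2) 0 (ne C v) (D.R v) (D.B v) f
            (⟨(p.1.1, C.nb v x), hx'⟩, g') = f (⟨(p.1.1, C.nb v x), hx'⟩, g') := by
          have e1 : Jo (-(T⁻¹ + T) / 2) (-(Complex.I * (T⁻¹ - T)) / 2) 0 (ne C v) (D.R v)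
            (D.B v) f = f := hJ v hv
          rw [e1]
        have e2 : nf C v ⟨(p.1.1, C.nb v x), hx'⟩ = ⟨(p.1.1, x), hx⟩ := by
          rw [← nf_nf C v ⟨(p.1.1, x), hx⟩, nf_pos C v ⟨(p.1.1, x), hx⟩ h.1 hv]
        rw [Jo_apply, ne_apply, e2] at e
        simp only [Np, Nm, ev_pos f hx, ev_pos f hx']
        set X' := f (⟨(p.1.1, x), hx⟩, g' * D.R v)
        set Y' := f (⟨(p.1.1, x), hx⟩, g' * D.B v)
        linear_combination (-2 * T) * e - (X' + Complex.I * Y') * hTT
  · have h0 : (Ch D T i).topologicalClosure.starProjection (ee (p, g)) = 0 := by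
      rw [Submodule.starProjection_apply_eq_zero_iff, Submodule.orthogonal_closure,
        Submodule.mem_orthogonal']
      intro f hf
      rw [inner_ee]
      by_contra h1
      exact h (hf.2.1 p g h1)
    rw [h0, norm_zero]
    norm_num

end Pool.Agent.H19.LI
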